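import Mathlib

/-!
# Values are determined by power sums
-/

set_option autoImplicit false

namespace Pool.Agent.L5helper23.PL

open Filter Topology

/-- exponential sums which tend to zero -/
theorem expsum_zero (s : Finset ℂ) (hs : ∀ a ∈ s, ‖a‖ = 1) : ∀ m : ℂ → ℂ,
    Tendsto (fun n : ℕ => ∑ a ∈ s, m a * a ^ n) atTop (𝓝 0) → ∀ a ∈ s, m a = 0 := by
  classical
  induction s using Finset.induction_on with
  | empty => intro m _ a ha; simp at ha
  | insert b s hb ih =>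
    intro m h
    have hs' : ∀ a ∈ s, ‖a‖ = 1 := fun a ha => hs a (Finset.mem_insert_of_mem ha)
    have h1 : Tendsto (fun n : ℕ => ∑ a ∈ s, (m a * (a - b)) * a ^ n) atTop (𝓝 0) := by
      have h2 := (h.comp (tendsto_add_atTop_nat 1)).sub (h.const_mul b)
      rw [mul_zero, sub_zero] at h2
      refine h2.congr fun n => ?_
      simp only [Function.comp_apply]
      rw [Finset.sum_insert hb, Finset.sum_insert hb, mul_add, Finset.mul_sum]
      have h3 : ∑ a ∈ s, m a * (a - b) * a ^ n = ∑ a ∈ s, m a * a ^ (n + 1) -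
          ∑ a ∈ s, b * (m a * a ^ n) := by
        rw [← Finset.sum_sub_distrib]
        refine Finset.sum_congr rfl fun a _ => ?_
        ring
      rw [h3]
      ring
    have h4 : ∀ a ∈ s, m a = 0 := by
      intro a ha
      have h5 := ih hs' (fun a => m a * (a - b)) h1 a ha
      refine (mul_eq_zero.1 h5).resolve_right fun h6 => hb ?_
      rwa [← sub_eq_zero.1 h6]
    intro a ha
    rcases Finset.mem_insert.1 ha with rfl | ha
    · have h5 : Tendsto (fun n : ℕ => m a * a ^ n) atTop (𝓝 0) := by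
        refine h.congr fun n => ?_
        rw [Finset.sum_insert hb, Finset.sum_eq_zero, add_zero]
        intro c hc
        rw [h4 c hc, zero_mul]
      have h6 := h5.norm
      have h7 : (fun n : ℕ => ‖m a * a ^ n‖) = fun _ => ‖m a‖ := by
        funext n
        rw [norm_mul, norm_pow, hs a (Finset.mem_insert_self _ _), one_pow, mul_one]
      rw [h7, norm_zero] at h6
      exact norm_eq_zero.1 (tendsto_nhds_unique tendsto_const_nhds h6)
    · exact h4 a ha

/-- the values of two families with the same power sums -/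
theorem powsum {ι : Type} (γ : ι → ℂ) (c : ι → ℂ) (hγ : ∀ i, γ i ≠ 0) (hc : ∀ i, ‖c i‖ ≤ 1)
    (hsum : Summable fun i => ‖γ i‖⁻¹ ^ 2)
    (h0 : ∀ n : ℕ, ∑' i, c i * (γ i)⁻¹ ^ (n + 2) = 0) (a : ℂ) :
    ∑ᶠ i ∈ {i | γ i = a}, c i = 0 := by
  classical
  -- finiteness
  have hfin : ∀ r : ℝ, {i | ‖γ i‖ ≤ r}.Finite := by
    intro r
    by_cases hr : 0 < r
    · have h1 := hsum.tendsto_cofinite_zero
      have h2 : ∀ᶠ i in cofinite, ‖γ i‖⁻¹ ^ 2 < (r⁻¹) ^ 2 :=
        h1.eventually (gt_mem_nhds (by positivity))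
      refine (h2 : {i | ¬ (‖γ i‖⁻¹ ^ 2 < (r⁻¹) ^ 2)}.Finite).subset fun i hi => ?_
      have h3 : 0 < ‖γ i‖ := norm_pos_iff.2 (hγ i)
      have h4 : r⁻¹ ≤ ‖γ i‖⁻¹ := inv_anti₀ h3 hi
      have h5 : 0 < r⁻¹ := by positivity
      intro h6
      have h7 : ‖γ i‖⁻¹ ^ 2 < (r⁻¹) ^ 2 := h6
      exact absurd (pow_le_pow_left₀ h5.le h4 2) (not_le.2 h7)
    · refine Set.finite_empty.subset fun i hi => ?_
      have h3 : 0 < ‖γ i‖ := norm_pos_iff.2 (hγ i)
      exact absurd (lt_of_lt_of_le h3 hi) hr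
  have hfa : ∀ a : ℂ, {i | γ i = a}.Finite := fun a =>
    (hfin ‖a‖).subset fun i hi => by
      have : γ i = a := hi
      simp [this]
  by_contra hne
  -- the bad values
  let Bad : Set ℂ := {a | ∑ᶠ i ∈ {i | γ i = a}, c i ≠ 0}
  have hbadr : ∀ a ∈ Bad, ∃ i, γ i = a := by
    intro a ha
    by_contra h1
    push Not at h1
    apply ha
    have : {i | γ i = a} = ∅ := by
      ext i
      simpa using h1 i
    rw [this]
    simp
  -- the minimal modulus
  have hB1 : (Bad ∩ {b | ‖b‖ ≤ ‖a‖}).Finite := by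
    refine ((hfin ‖a‖).image γ).subset ?_
    rintro b ⟨hb, hb2⟩
    obtain ⟨i, rfl⟩ := hbadr b hb
    exact ⟨i, hb2, rfl⟩
  have hB2 : (Bad ∩ {b | ‖b‖ ≤ ‖a‖}).Nonempty := ⟨a, hne, le_refl ‖a‖⟩
  obtain ⟨b, ⟨hb, hba⟩, hmin'⟩ := Set.exists_min_image _ norm hB1 hB2
  have hmin : ∀ b' ∈ Bad, ‖b‖ ≤ ‖b'‖ := by
    intro b' hb'
    by_cases h1 : ‖b'‖ ≤ ‖a‖
    · exact hmin' b' ⟨hb', h1⟩
    · exact hba.trans (not_le.1 h1).le
  obtain ⟨i₀, hi₀⟩ := hbadr b hb
  have hbpos : 0 < ‖b‖ := by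
    rw [← hi₀]
    exact norm_pos_iff.2 (hγ i₀)
  set r := ‖b‖ with hr
  -- the scaled sums
  have hS : ∀ n : ℕ, Summable fun i => c i * ((r : ℂ) * (γ i)⁻¹) ^ (n + 2) := by
    intro n
    have h1 : ∀ᶠ i in cofinite, ‖c i * ((r : ℂ) * (γ i)⁻¹) ^ (n + 2)‖ ≤
        r ^ 2 * ‖γ i‖⁻¹ ^ 2 := by
      refine (hfin r).subset fun i hi => ?_
      by_contra h2
      apply hi
      change ¬ ‖γ i‖ ≤ r at h2
      change ‖c i * ((r : ℂ) * (γ i)⁻¹) ^ (n + 2)‖ ≤ r ^ 2 * ‖γ i‖⁻¹ ^ 2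
      rw [norm_mul, norm_pow, norm_mul, norm_inv, Complex.norm_real, Real.norm_of_nonneg hbpos.le]
      have h3 : 0 ≤ r * ‖γ i‖⁻¹ := by positivity
      have h4 : r * ‖γ i‖⁻¹ ≤ 1 := by
        rw [← div_eq_mul_inv, div_le_one (lt_trans hbpos (not_le.1 h2))]
        exact (not_le.1 h2).le
      calc ‖c i‖ * (r * ‖γ i‖⁻¹) ^ (n + 2) ≤ 1 * (r * ‖γ i‖⁻¹) ^ 2 := by
            refine mul_le_mul (hc i) (pow_le_pow_of_le_one h3 h4 (by omega)) (by positivity)
              zero_le_one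
        _ = r ^ 2 * ‖γ i‖⁻¹ ^ 2 := by rw [one_mul, mul_pow]
    exact Summable.of_norm_bounded_eventually (hsum.mul_left (r ^ 2)) h1
  have hS0 : ∀ n : ℕ, ∑' i, c i * ((r : ℂ) * (γ i)⁻¹) ^ (n + 2) = 0 := by
    intro n
    have h1 : (fun i => c i * ((r : ℂ) * (γ i)⁻¹) ^ (n + 2)) =
        fun i => (r : ℂ) ^ (n + 2) * (c i * (γ i)⁻¹ ^ (n + 2)) := by
      funext i
      rw [mul_pow]
      ring
    rw [h1, tsum_mul_left, h0, mul_zero]
  -- the finite part
  let F : Finset ι := (hfin r).toFinset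
  have htail : Tendsto (fun n : ℕ => ∑' i, if i ∈ F then 0 else
      c i * ((r : ℂ) * (γ i)⁻¹) ^ (n + 2)) atTop (𝓝 0) := by
    have h1 : Tendsto (fun n : ℕ => ∑' i, if i ∈ F then 0 else
      c i * ((r : ℂ) * (γ i)⁻¹) ^ (n + 2)) atTop (𝓝 (∑' _ : ι, (0 : ℂ))) := by
      refine tendsto_tsum_of_dominated_convergence (bound := fun i => r ^ 2 * ‖γ i‖⁻¹ ^ 2)
        (hsum.mul_left _) ?_ ?_
      · intro i
        by_cases hi : i ∈ F
        · simp [hi]
        · simp only [hi, if_false]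
          have h2 : ¬ ‖γ i‖ ≤ r := fun h => hi ((hfin r).mem_toFinset.2 h)
          have h3 : ‖(r : ℂ) * (γ i)⁻¹‖ < 1 := by
            rw [norm_mul, norm_inv, Complex.norm_real, Real.norm_of_nonneg hbpos.le,
              ← div_eq_mul_inv, div_lt_one (lt_trans hbpos (not_le.1 h2))]
            exact not_le.1 h2
          have h4 := (tendsto_pow_atTop_nhds_zero_of_norm_lt_one h3).comp
            (tendsto_add_atTop_nat 2)
          have h5 := h4.const_mul (c i)
          rw [mul_zero] at h5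
          exact h5
      · refine Eventually.of_forall fun n i => ?_
        by_cases hi : i ∈ F
        · simp only [hi, if_true, norm_zero]
          positivity
        · simp only [hi, if_false]
          have h2 : ¬ ‖γ i‖ ≤ r := fun h => hi ((hfin r).mem_toFinset.2 h)
          rw [norm_mul, norm_pow, norm_mul, norm_inv, Complex.norm_real,
            Real.norm_of_nonneg hbpos.le]
          have h3 : 0 ≤ r * ‖γ i‖⁻¹ := by positivity
          have h4 : r * ‖γ i‖⁻¹ ≤ 1 := by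
            rw [← div_eq_mul_inv, div_le_one (lt_trans hbpos (not_le.1 h2))]
            exact (not_le.1 h2).le
          calc ‖c i‖ * (r * ‖γ i‖⁻¹) ^ (n + 2) ≤ 1 * (r * ‖γ i‖⁻¹) ^ 2 := by
                refine mul_le_mul (hc i) (pow_le_pow_of_le_one h3 h4 (by omega)) (by positivity)
                  zero_le_one
            _ = r ^ 2 * ‖γ i‖⁻¹ ^ 2 := by rw [one_mul, mul_pow]
    rwa [tsum_zero] at h1
  have hsplit : ∀ n : ℕ, ∑ i ∈ F, c i * ((r : ℂ) * (γ i)⁻¹) ^ (n + 2) =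
      - ∑' i, if i ∈ F then 0 else c i * ((r : ℂ) * (γ i)⁻¹) ^ (n + 2) := by
    intro n
    have h1 : ∀ i, c i * ((r : ℂ) * (γ i)⁻¹) ^ (n + 2) =
        (if i ∈ F then c i * ((r : ℂ) * (γ i)⁻¹) ^ (n + 2) else 0) +
        (if i ∈ F then 0 else c i * ((r : ℂ) * (γ i)⁻¹) ^ (n + 2)) := by
      intro i
      split_ifs <;> simp
    have h2 : Summable fun i => if i ∈ F then c i * ((r : ℂ) * (γ i)⁻¹) ^ (n + 2) else 0 :=
      summable_of_ne_finset_zero (s := F) fun i hi => by simp [hi]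
    have h3 : Summable fun i => if i ∈ F then 0 else c i * ((r : ℂ) * (γ i)⁻¹) ^ (n + 2) := by
      have h4 := (hS n).sub h2
      refine h4.congr fun i => ?_
      split_ifs <;> simp
    have h4 := hS0 n
    rw [tsum_congr h1, h2.tsum_add h3] at h4
    have h5 : ∑' i, (if i ∈ F then c i * ((r : ℂ) * (γ i)⁻¹) ^ (n + 2) else 0) =
        ∑ i ∈ F, c i * ((r : ℂ) * (γ i)⁻¹) ^ (n + 2) := by
      rw [tsum_eq_sum (s := F) (fun i hi => by simp [hi])]
      exact Finset.sum_congr rfl fun i hi => by simp [hi]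
    rw [h5] at h4
    exact eq_neg_of_add_eq_zero_left h4
  -- group by values
  let V : Finset ℂ := F.image γ
  have hmass : ∀ v : ℂ, ∑ᶠ i ∈ {i | γ i = v}, c i = ∑ i ∈ (hfa v).toFinset, c i := by
    intro v
    rw [finsum_mem_eq_finite_toFinset_sum _ (hfa v)]
  have hgroup : ∀ n : ℕ, ∑ i ∈ F, c i * ((r : ℂ) * (γ i)⁻¹) ^ (n + 2) =
      ∑ v ∈ V, (∑ᶠ i ∈ {i | γ i = v}, c i) * ((r : ℂ) * v⁻¹) ^ (n + 2) := by
    intro n
    rw [← Finset.sum_fiberwise_of_maps_to (s := F) (t := V) (g := γ)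
      (fun i hi => Finset.mem_image_of_mem γ hi)]
    refine Finset.sum_congr rfl fun v hv => ?_
    have h1 : F.filter (fun i => γ i = v) = (hfa v).toFinset := by
      ext i
      rw [Finset.mem_filter, Set.Finite.mem_toFinset, Set.Finite.mem_toFinset]
      constructor
      · exact fun h => h.2
      · intro h
        refine ⟨?_, h⟩
        obtain ⟨i', hi', h2⟩ := Finset.mem_image.1 hv
        have h3 : ‖γ i'‖ ≤ r := (hfin r).mem_toFinset.1 hi'
        have h4 : γ i = v := h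
        change ‖γ i‖ ≤ r
        rw [h4, ← h2]
        exact h3
    rw [h1, hmass, Finset.sum_mul]
    refine Finset.sum_congr rfl fun i hi => ?_
    have h2 : γ i = v := (hfa v).mem_toFinset.1 hi
    rw [h2]
  -- only the values of modulus `r` matter
  let W : Finset ℂ := V.filter fun v => ‖v‖ = r
  have hW : ∀ n : ℕ, ∑ v ∈ V, (∑ᶠ i ∈ {i | γ i = v}, c i) * ((r : ℂ) * v⁻¹) ^ (n + 2) =
      ∑ v ∈ W, (∑ᶠ i ∈ {i | γ i = v}, c i) * ((r : ℂ) * v⁻¹) ^ (n + 2) := by
    intro n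
    refine (Finset.sum_subset (Finset.filter_subset _ _) fun v hv hv2 => ?_).symm
    have h1 : v ∉ Bad := by
      intro hbad
      apply hv2
      rw [Finset.mem_filter]
      refine ⟨hv, le_antisymm ?_ (hmin v hbad)⟩
      obtain ⟨i', hi', rfl⟩ := Finset.mem_image.1 hv
      exact (hfin r).mem_toFinset.1 hi'
    have h2 : ∑ᶠ i ∈ {i | γ i = v}, c i = 0 := by
      by_contra h3
      exact h1 h3
    rw [h2, zero_mul]
  -- the exponential sum
  let e : ℂ → ℂ := fun v => (r : ℂ) * v⁻¹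
  have hrne : (r : ℂ) ≠ 0 := by exact_mod_cast hbpos.ne'
  have he : ∀ v ∈ W, ∀ v' ∈ W, e v = e v' → v = v' := by
    intro v _ v' _ h
    exact inv_injective (mul_left_cancel₀ hrne h)
  let m : ℂ → ℂ := fun u => (∑ᶠ i ∈ {i | γ i = (r : ℂ) * u⁻¹}, c i) * u ^ 2
  have hev : ∀ v, (r : ℂ) * (e v)⁻¹ = v := by
    intro v
    simp only [e, mul_inv, inv_inv]
    rw [← mul_assoc, mul_inv_cancel₀ hrne, one_mul]
  have hexp : Tendsto (fun n : ℕ => ∑ u ∈ W.image e, m u * u ^ n) atTop (𝓝 0) := by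
    have h1 : ∀ n : ℕ, ∑ u ∈ W.image e, m u * u ^ n =
        - ∑' i, if i ∈ F then 0 else c i * ((r : ℂ) * (γ i)⁻¹) ^ (n + 2) := by
      intro n
      rw [← hsplit, hgroup, hW, Finset.sum_image (fun v hv v' hv' h => he v hv v' hv' h)]
      refine Finset.sum_congr rfl fun v _ => ?_
      simp only [m]
      rw [hev, mul_assoc, ← pow_add, add_comm 2 n]
    have h2 := htail.neg
    rw [neg_zero] at h2
    exact h2.congr fun n => (h1 n).symm
  have hone : ∀ u ∈ W.image e, ‖u‖ = 1 := by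
    intro u hu
    obtain ⟨v, hv, rfl⟩ := Finset.mem_image.1 hu
    have h1 : ‖v‖ = r := (Finset.mem_filter.1 hv).2
    simp only [e]
    rw [norm_mul, norm_inv, h1, Complex.norm_real, Real.norm_of_nonneg hbpos.le]
    exact mul_inv_cancel₀ hbpos.ne'
  have hbW : b ∈ W := by
    rw [Finset.mem_filter]
    refine ⟨Finset.mem_image.2 ⟨i₀, ?_, hi₀⟩, rfl⟩
    rw [Set.Finite.mem_toFinset]
    change ‖γ i₀‖ ≤ r
    rw [hi₀]
  have hfinal := expsum_zero _ hone m hexp (e b) (Finset.mem_image_of_mem e hbW)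
  simp only [m] at hfinal
  rw [hev] at hfinal
  have heb : e b ≠ 0 := by
    intro h
    have := hone _ (Finset.mem_image_of_mem e hbW)
    rw [h, norm_zero] at this
    exact zero_ne_one this
  exact hb ((mul_eq_zero.1 hfinal).resolve_right (pow_ne_zero _ heb))

end Pool.Agent.L5helper23.PL
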